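import Pool.Agent.helper80.VD.SpecG

set_option autoImplicit false

open scoped ContDiff Topology InnerProductSpace
open MeasureTheory Filter Set

namespace Pool.Agent.VD

noncomputable section

variable {d : ℕ}

/-- the numerator -/
def GNK_f (G : V d → V d →L[ℝ] V d) (x u v : V d) : ℝ := ⟪G x (Riem G x u v v), u⟫_ℝ

/-- the Gram determinant -/
def GNK_D (G : V d → V d →L[ℝ] V d) (x u v : V d) : ℝ := ⟪G x u, u⟫_ℝ * ⟪G x v, v⟫_ℝ - ⟪G x u, v⟫_ℝ ^ 2

theorem GNK_symm {G : V d → V d →L[ℝ] V d} (hG : IsMetric G) (x u v : V d) : ⟪G x u, v⟫_ℝ = ⟪G x v, u⟫_ℝ := by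
  rw [hG.symm, real_inner_comm]

theorem GNK_D_add {G : V d → V d →L[ℝ] V d} (hG : IsMetric G) (x u v : V d) (a : ℝ) :
    GNK_D G x (u + a • v) v = GNK_D G x u v := by
  unfold GNK_D
  rw [map_add, map_smul, inner_add_left, inner_add_left, inner_add_right, inner_add_right, real_inner_smul_left,
    real_inner_smul_left, real_inner_smul_right, real_inner_smul_right, real_inner_smul_left, GNK_symm hG x v u]
  ring

theorem GNK_D_smul (G : V d → V d →L[ℝ] V d) (x u v : V d) (s t : ℝ) :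
    GNK_D G x (s • u) (t • v) = s ^ 2 * t ^ 2 * GNK_D G x u v := by
  unfold GNK_D
  rw [map_smul, map_smul, real_inner_smul_left, real_inner_smul_right, real_inner_smul_left, real_inner_smul_right,
    real_inner_smul_left, real_inner_smul_right]
  ring

/-- the Gram determinant is positive -/
theorem GNK_D_pos {G : V d → V d →L[ℝ] V d} (hG : IsMetric G) (x u v : V d) (hv : v ≠ 0) (hu : ∀ a : ℝ, u + a • v ≠ 0) :
    0 < GNK_D G x u v := by
  have h1 := hG.pos x v hv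
  have h2 := hG.pos x _ (hu (-(⟪G x u, v⟫_ℝ / ⟪G x v, v⟫_ℝ)))
  obtain ⟨a, ha⟩ : ∃ a : ℝ, a = -(⟪G x u, v⟫_ℝ / ⟪G x v, v⟫_ℝ) := ⟨_, rfl⟩
  rw [← ha] at h2
  have h3 : a * ⟪G x v, v⟫_ℝ = -⟪G x u, v⟫_ℝ := by
    rw [ha]
    field_simp
  rw [map_add, map_smul, inner_add_left, inner_add_right, inner_add_right, real_inner_smul_left,
    real_inner_smul_right, real_inner_smul_left, real_inner_smul_right, GNK_symm hG x v u] at h2
  have h4 : 0 < ⟪G x v, v⟫_ℝ * (⟪G x u, u⟫_ℝ + a * ⟪G x u, v⟫_ℝ + (a * ⟪G x u, v⟫_ℝ + a * (a * ⟪G x v, v⟫_ℝ))) := mul_pos h1 h2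
  rw [h3] at h4
  unfold GNK_D
  have h5 : ⟪G x v, v⟫_ℝ * (⟪G x u, u⟫_ℝ + a * ⟪G x u, v⟫_ℝ + (a * ⟪G x u, v⟫_ℝ + a * -⟪G x u, v⟫_ℝ)) =
      ⟪G x u, u⟫_ℝ * ⟪G x v, v⟫_ℝ + (a * ⟪G x v, v⟫_ℝ) * ⟪G x u, v⟫_ℝ := by ring
  rw [h5, h3] at h4
  nlinarith [h4]

theorem GNK_proof (hGRI : GRI_stmt) : GNK_stmt := by
  intro d K G hK hG hneg
  obtain ⟨hr1, hr2, hr3, hr4, -, hr6, hr7⟩ := hGRI d G hG
  have h01 : ∀ x v w : V d, Riem G x 0 v w = 0 := by
    intro x v w
    have h := hr1 x 0 0 v w 1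
    rw [smul_zero, add_zero, one_smul] at h
    exact left_eq_add.1 h
  have h02 : ∀ x u w : V d, Riem G x u 0 w = 0 := by
    intro x u w
    have h := hr2 x u 0 0 w 1
    rw [smul_zero, add_zero, one_smul] at h
    exact left_eq_add.1 h
  have h03 : ∀ x u v : V d, Riem G x u v 0 = 0 := by
    intro x u v
    have h := hr3 x u v 0 0 1
    rw [smul_zero, add_zero, one_smul] at h
    exact left_eq_add.1 h
  have hs1 : ∀ (x u v w : V d) (a : ℝ), Riem G x (a • u) v w = a • Riem G x u v w := by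
    intro x u v w a
    have h := hr1 x 0 u v w a
    rwa [zero_add, h01, zero_add] at h
  have hs2 : ∀ (x u v w : V d) (a : ℝ), Riem G x u (a • v) w = a • Riem G x u v w := by
    intro x u v w a
    have h := hr2 x u 0 v w a
    rwa [zero_add, h02, zero_add] at h
  have hs3 : ∀ (x u v w : V d) (a : ℝ), Riem G x u v (a • w) = a • Riem G x u v w := by
    intro x u v w a
    have h := hr3 x u v 0 w a
    rwa [zero_add, h03, zero_add] at h
  have hfs : ∀ (x u v : V d) (s t : ℝ), GNK_f G x (s • u) (t • v) = s ^ 2 * t ^ 2 * GNK_f G x u v := by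
    intro x u v s t
    unfold GNK_f
    rw [hs1, hs2, hs3, map_smul, map_smul, map_smul, real_inner_smul_left, real_inner_smul_left, real_inner_smul_left,
      real_inner_smul_right]
    ring
  have hfa : ∀ (x u v : V d) (a : ℝ), GNK_f G x (u + a • v) v = GNK_f G x u v := by
    intro x u v a
    unfold GNK_f
    rw [hr1, hr4, smul_zero, add_zero, inner_add_right, real_inner_smul_right, hr6, mul_zero, add_zero]
  -- the compact set
  obtain ⟨S, hS⟩ : ∃ S : Set (V d × V d × V d), S = K ×ˢ ((Metric.sphere (0 : V d) 1 ×ˢ Metric.sphere (0 : V d) 1) ∩ {q : V d × V d | ⟪q.1, q.2⟫_ℝ = 0}) := ⟨_, rfl⟩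
  have hSc : IsCompact S := by
    rw [hS]
    refine hK.prod ((((isCompact_sphere (0 : V d) 1)).prod (isCompact_sphere (0 : V d) 1)).inter_right ?_)
    exact isClosed_eq (continuous_fst.inner continuous_snd) continuous_const
  have hind : ∀ q ∈ S, LinearIndependent ℝ ![q.2.1, q.2.2] := by
    intro q hq
    rw [hS] at hq
    obtain ⟨-, ⟨h1, h2⟩, h3⟩ := hq
    have h1' : ‖q.2.1‖ = 1 := by simpa using h1
    have h2' : ‖q.2.2‖ = 1 := by simpa using h2
    have h3' : ⟪q.2.1, q.2.2⟫_ℝ = 0 := h3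
    rw [LinearIndependent.pair_iff]
    intro s t hst
    constructor
    · have h4 : ⟪q.2.1, s • q.2.1 + t • q.2.2⟫_ℝ = 0 := by rw [hst, inner_zero_right]
      rw [inner_add_right, real_inner_smul_right, real_inner_smul_right, h3', real_inner_self_eq_norm_sq, h1'] at h4
      linarith
    · have h4 : ⟪q.2.2, s • q.2.1 + t • q.2.2⟫_ℝ = 0 := by rw [hst, inner_zero_right]
      rw [inner_add_right, real_inner_smul_right, real_inner_smul_right, real_inner_comm, h3', real_inner_self_eq_norm_sq, h2'] at h4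
      linarith
  have hrat : ∀ q ∈ S, GNK_f G q.1 q.2.1 q.2.2 / GNK_D G q.1 q.2.1 q.2.2 < 0 := fun q hq => hneg q.1 q.2.1 q.2.2 (hind q hq)
  have hDne : ∀ q ∈ S, GNK_D G q.1 q.2.1 q.2.2 ≠ 0 := by
    intro q hq h0
    have h1 := hrat q hq
    rw [h0, div_zero] at h1
    exact lt_irrefl _ h1
  have hfc : Continuous (fun q : V d × V d × V d => GNK_f G q.1 q.2.1 q.2.2) := by
    have h0 : Continuous (fun q : V d × V d × V d => ((q.1, q.2.1, q.2.2, q.2.2) : V d × V d × V d × V d)) := by fun_prop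
    have h1 := hr7.continuous.comp h0
    simp only [Function.comp_def] at h1
    have h2 : Continuous (fun q : V d × V d × V d => G q.1) := hG.smooth.continuous.comp continuous_fst
    have h3 := (h2.clm_apply h1).inner (𝕜 := ℝ) (continuous_snd.fst : Continuous (fun q : V d × V d × V d => q.2.1))
    simp only [GNK_f]
    exact h3
  have hDc : Continuous (fun q : V d × V d × V d => GNK_D G q.1 q.2.1 q.2.2) := by
    have h0 : Continuous (fun q : V d × V d × V d => G q.1) := hG.smooth.continuous.comp continuous_fst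
    have e1 : Continuous (fun q : V d × V d × V d => q.2.1) := by fun_prop
    have e2 : Continuous (fun q : V d × V d × V d => q.2.2) := by fun_prop
    have h1 : Continuous (fun q : V d × V d × V d => G q.1 q.2.1) := h0.clm_apply e1
    have h2 : Continuous (fun q : V d × V d × V d => G q.1 q.2.2) := h0.clm_apply e2
    have h3 := ((h1.inner (𝕜 := ℝ) e1).mul (h2.inner (𝕜 := ℝ) e2)).sub ((h1.inner (𝕜 := ℝ) e2).pow 2)
    simp only [GNK_D]
    exact h3
  have hk : ∃ k : ℝ, 0 < k ∧ k ≤ 1 ∧ ∀ q ∈ S, GNK_f G q.1 q.2.1 q.2.2 / GNK_D G q.1 q.2.1 q.2.2 ≤ -k := by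
    rcases S.eq_empty_or_nonempty with h0 | hne
    · refine ⟨1, one_pos, le_rfl, fun q hq => ?_⟩
      rw [h0] at hq
      exact absurd hq (Set.notMem_empty q)
    · obtain ⟨q₀, hq₀, hmax⟩ := hSc.exists_isMaxOn hne (hfc.continuousOn.div hDc.continuousOn hDne)
      refine ⟨min 1 (-(GNK_f G q₀.1 q₀.2.1 q₀.2.2 / GNK_D G q₀.1 q₀.2.1 q₀.2.2)), lt_min one_pos (by linarith [hrat q₀ hq₀]), min_le_left _ _, fun q hq => ?_⟩
      have h1 : GNK_f G q.1 q.2.1 q.2.2 / GNK_D G q.1 q.2.1 q.2.2 ≤ GNK_f G q₀.1 q₀.2.1 q₀.2.2 / GNK_D G q₀.1 q₀.2.1 q₀.2.2 := hmax hq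
      have h2 := min_le_right 1 (-(GNK_f G q₀.1 q₀.2.1 q₀.2.2 / GNK_D G q₀.1 q₀.2.1 q₀.2.2))
      linarith
  obtain ⟨k, hk0, hk1, hk⟩ := hk
  refine ⟨k, hk0, hk1, fun x hx u v => ?_⟩
  show GNK_f G x u v ≤ -k * GNK_D G x u v
  by_cases hv : v = 0
  · subst hv
    have h1 := hfs x u 0 1 0
    have h2 := GNK_D_smul G x u 0 1 0
    rw [one_smul, zero_smul] at h1 h2
    rw [h1, h2]
    simp
  have hv2 : 0 < ‖v‖ := norm_pos_iff.2 hv
  obtain ⟨a, ha⟩ : ∃ a : ℝ, a = -(⟪u, v⟫_ℝ / ‖v‖ ^ 2) := ⟨_, rfl⟩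
  obtain ⟨w, hw⟩ : ∃ w : V d, w = u + a • v := ⟨_, rfl⟩
  have hwv : ⟪w, v⟫_ℝ = 0 := by
    rw [hw, inner_add_left, real_inner_smul_left, real_inner_self_eq_norm_sq, ha]
    field_simp
    ring
  rw [← hfa x u v a, ← GNK_D_add hG x u v a, ← hw]
  by_cases hw0 : w = 0
  · rw [hw0]
    have h1 := hfs x 0 v 0 1
    have h2 := GNK_D_smul G x 0 v 0 1
    rw [one_smul, zero_smul] at h1 h2
    rw [h1, h2]
    simp
  have hw2 : 0 < ‖w‖ := norm_pos_iff.2 hw0
  have hq : (x, ‖w‖⁻¹ • w, ‖v‖⁻¹ • v) ∈ S := by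
    rw [hS]
    refine ⟨hx, ⟨?_, ?_⟩, ?_⟩
    · show ‖w‖⁻¹ • w ∈ Metric.sphere (0 : V d) 1
      rw [mem_sphere_zero_iff_norm, norm_smul, norm_inv, norm_norm, inv_mul_cancel₀ hw2.ne']
    · show ‖v‖⁻¹ • v ∈ Metric.sphere (0 : V d) 1
      rw [mem_sphere_zero_iff_norm, norm_smul, norm_inv, norm_norm, inv_mul_cancel₀ hv2.ne']
    · show ⟪‖w‖⁻¹ • w, ‖v‖⁻¹ • v⟫_ℝ = 0
      rw [real_inner_smul_left, real_inner_smul_right, hwv, mul_zero, mul_zero]
  have h1 := hk _ hq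
  have hD : 0 < GNK_D G x w v := by
    refine GNK_D_pos hG x w v hv fun b hb => hw0 ?_
    have h2 : ⟪w + b • v, v⟫_ℝ = 0 := by rw [hb, inner_zero_left]
    rw [inner_add_left, hwv, real_inner_smul_left, real_inner_self_eq_norm_sq, zero_add] at h2
    have h3 : b = 0 := by
      rcases mul_eq_zero.1 h2 with h | h
      · exact h
      · exact absurd h (pow_pos hv2 2).ne'
    rw [h3, zero_smul, add_zero] at hb
    exact hb
  have hc : 0 < ‖w‖⁻¹ ^ 2 * ‖v‖⁻¹ ^ 2 := by positivity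
  change GNK_f G x (‖w‖⁻¹ • w) (‖v‖⁻¹ • v) / GNK_D G x (‖w‖⁻¹ • w) (‖v‖⁻¹ • v) ≤ -k at h1
  rw [hfs, GNK_D_smul, mul_div_mul_left _ _ hc.ne', div_le_iff₀ hD] at h1
  exact h1

end

end Pool.Agent.VD
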