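import Pool.Agent.helper80.VD.SpecF

set_option autoImplicit false

open scoped ContDiff Topology InnerProductSpace
open MeasureTheory Filter Set

namespace Pool.Agent.VD

noncomputable section

theorem GUN_proof (hGXH : GXH_stmt) (hFC1 : FC1_stmt) : GUN_stmt := by
  intro d G Φ hG hΦ
  obtain ⟨hH1, hX1, -, hnrm, hX2, -, hdH⟩ := hGXH d G hG
  obtain ⟨hC1, huniq⟩ := hFC1 (P d) (XH G) Φ hX1 hΦ.smooth hΦ.zero hΦ.add hΦ.deriv
  have hcons : ∀ (t : ℝ) (p : P d), Ham G (Φ t p) = Ham G p := by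
    intro t p
    have h1 : ∀ s, HasDerivAt (fun s => Ham G (Φ s p)) 0 s := by
      intro s
      have h2 : HasFDerivAt (Ham G) (fderiv ℝ (Ham G) (Φ s p)) (Φ s p) :=
        ((hH1.differentiable (by simp)) _).hasFDerivAt
      have h3 := h2.comp_hasDerivAt s (hΦ.deriv s p)
      rw [hdH] at h3
      exact h3
    have h4 := is_const_of_deriv_eq_zero (fun s => (h1 s).differentiableAt) (fun s => (h1 s).deriv) t 0
    rw [h4, hΦ.zero]
  refine ⟨hC1, huniq, fun t p => ⟨hcons t p, ?_⟩, ?_⟩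
  · have h1 : ∀ q : P d, nrm G q = Real.sqrt (2 * Ham G q) := by
      intro q
      unfold nrm Ham
      congr 1
      ring
    rw [h1, h1, hcons]
  · intro t l x ξ
    have hsc : ∀ q : P d, XH G (q.1, l • q.2) = (l • (XH G q).1, (l * l) • (XH G q).2) := by
      intro q
      refine Prod.ext ?_ ?_
      · show IG G q.1 (l • q.2) = l • IG G q.1 q.2
        rw [map_smul]
      · refine ext_inner_right ℝ fun w => ?_
        rw [hX2 (q.1, l • q.2) w]
        show _ = ⟪(l * l) • (XH G q).2, w⟫_ℝ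
        rw [real_inner_smul_left, hX2 q w]
        show -(⟪fderiv ℝ (IG G) q.1 w (l • q.2), l • q.2⟫_ℝ / 2) = _
        rw [map_smul, real_inner_smul_left, real_inner_smul_right]
        ring
    have h1 := huniq (fun s => ((Φ (l * s) (x, ξ)).1, l • (Φ (l * s) (x, ξ)).2)) (fun s => by
      have h2 : HasDerivAt (fun s : ℝ => l * s) l s := by
        have := (hasDerivAt_id s).const_mul l
        simpa using this
      have h3 : HasDerivAt (fun s : ℝ => Φ (l * s) (x, ξ)) (l • XH G (Φ (l * s) (x, ξ))) s :=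
        HasDerivAt.scomp s (hΦ.deriv (l * s) (x, ξ)) h2
      rw [hsc (Φ (l * s) (x, ξ))]
      have h4 : HasDerivAt (fun s : ℝ => (Φ (l * s) (x, ξ)).1) (l • (XH G (Φ (l * s) (x, ξ))).1) s := h3.fst
      have h5 : HasDerivAt (fun s : ℝ => (Φ (l * s) (x, ξ)).2) (l • (XH G (Φ (l * s) (x, ξ))).2) s := h3.snd
      have h6 := h5.const_smul l
      rw [smul_smul] at h6
      exact h4.prodMk h6) t
    have h7 : ((Φ (l * 0) (x, ξ)).1, l • (Φ (l * 0) (x, ξ)).2) = (x, l • ξ) := by
      rw [mul_zero, hΦ.zero]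
    rw [h7] at h1
    exact h1.symm

end

end Pool.Agent.VD
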